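import Pool.Agent.Helper13.LZ.BR1
import Pool.Agent.Helper33.C2.Pre

/-!
# Packet MT-BR3 (project C2): supports of the pair of a family
-/

set_option autoImplicit false

open Finset

namespace Pool.Agent.Helper16.LZ

open Pool.Agent.Helper99.LZ
open Pool.Agent.Helper52.C2 (Tg Fam Dir pre quad)

/-! ### the argument on sequences -/

theorem core (P Q : ℤ → ℝ) (hL : ∀ k, P (k - 1) ≤ P k) (hR : ∀ k, Q (k - 1) ≤ Q k)
    (hF : ∀ k, Q k ≤ P k) (lowQ : ∃ m : ℤ, ∀ k < m, Q k = 0) (lowF : ∃ m : ℤ, ∀ k < m, P k = Q k)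
    (highF : ∃ m : ℤ, ∀ k > m, P k = Q k) (hne : ∃ k, P k ≠ Q k)
    (W1 : ∀ q, P (q - 1) ≤ Q q → P (q - 1) - Q (q - 1) ≠ 0 → P q = Q q → P (q + 1) ≤ Q q)
    (W2 : ∀ q, P (q - 1) ≤ Q q → P q - Q q ≠ 0 → P (q - 1) = Q (q - 1) → P (q - 1) ≤ Q (q - 2))
    (N1 : ∀ p q, q ≤ p → 0 < P p - Q q → (P p - Q q) * (P (p + 2) - Q q) ≤ (P (p + 1) - Q q) ^ 2)
    (N2 : ∀ p q, q ≤ p → 0 < P p - Q q → (P p - Q q) * (P p - Q (q - 2)) ≤ (P p - Q (q - 1)) ^ 2) :
    ∃ a b : ℤ, (⟨P, Q⟩ : Pr).Reg a b := by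
  have mP : Monotone P := monotone_int_of_le_succ fun n => by
    have h1 := hL (n + 1)
    rwa [add_sub_cancel_right] at h1
  have mQ : Monotone Q := monotone_int_of_le_succ fun n => by
    have h1 := hR (n + 1)
    rwa [add_sub_cancel_right] at h1
  obtain ⟨m0, hm0⟩ := lowF
  obtain ⟨a, ha, ha2⟩ := Int.exists_least_of_bdd (P := fun z => P z ≠ Q z)
    ⟨m0, fun z hz => by
      by_contra hcon
      exact hz (hm0 z (not_le.1 hcon))⟩ hne
  obtain ⟨M, hM⟩ := highF
  obtain ⟨b, ⟨hab, hb⟩, hb2⟩ := Int.exists_least_of_bdd (P := fun z => a < z ∧ P z = Q z)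
    ⟨a, fun z hz => hz.1.le⟩ ⟨max a M + 1, by
      have := le_max_left a M
      omega, hM _ (by have := le_max_right a M; omega)⟩
  have hFpos : ∀ k, a ≤ k → k < b → Q k < P k := by
    intro k h1 h2
    rcases eq_or_lt_of_le h1 with h3 | h3
    · subst h3
      exact lt_of_le_of_ne (hF _) (Ne.symm ha)
    · refine lt_of_le_of_ne (hF _) fun h4 => ?_
      have := hb2 k ⟨h3, h4.symm⟩
      omega
  have hlowEq : ∀ k < a, P k = Q k := by
    intro k hk
    by_contra hcon
    have := ha2 k hcon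
    omega
  have hPa : Q a < P a := hFpos a le_rfl hab
  -- the right end
  have hb1 : P (b + 1) = P b := by
    refine le_antisymm ?_ (mP (by omega))
    have h1 := hFpos (b - 1) (by omega) (by omega)
    have h2 := W1 b (by rw [← hb]; exact mP (by omega)) (by linarith) hb
    rw [← hb] at h2
    exact h2
  have hright : ∀ n : ℕ, P (b + n) = P b ∧ P (b + n + 1) = P b := by
    intro n
    induction n with
    | zero =>
      rw [Nat.cast_zero, add_zero]
      exact ⟨rfl, hb1⟩
    | succ n ih =>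
      obtain ⟨i1, i2⟩ := ih
      have e1 : b + ((n + 1 : ℕ) : ℤ) = b + n + 1 := by push_cast; ring
      rw [e1]
      refine ⟨i2, ?_⟩
      refine le_antisymm ?_ (mP (by omega))
      have h0 : Q (a - 1) < P b := by
        have h1 : Q (a - 1) ≤ Q a := mQ (by omega)
        have h2 : P a ≤ P b := mP hab.le
        linarith
      have h1 := N1 (b + n) (a - 1) (by omega) (by rw [i1]; linarith)
      rw [i1, i2] at h1
      have e2 : b + (n : ℤ) + 2 = b + n + 1 + 1 := by ring
      rw [e2, pow_two] at h1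
      have h2 := le_of_mul_le_mul_left h1 (by linarith)
      linarith
  have hhi : ∀ k ≥ b, P k = P b ∧ Q k = P b := by
    intro k hk
    obtain ⟨n, hn⟩ := Int.eq_ofNat_of_zero_le (show 0 ≤ k - b by omega)
    have e1 : k = b + n := by omega
    have h1 : P k = P b := by rw [e1]; exact (hright n).1
    refine ⟨h1, le_antisymm (h1 ▸ hF k) ?_⟩
    rw [hb]
    exact mQ hk
  -- the left end
  have hl0 : Q (a - 1 - 1) = Q (a - 1) := by
    have h1 : P (a - 1) = Q (a - 1) := hlowEq _ (by omega)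
    have h2 := W2 a (by rw [h1]; exact mQ (by omega)) (by linarith) h1
    have e1 : a - 1 - 1 = a - 2 := by ring
    rw [e1]
    refine le_antisymm (mQ (by omega)) ?_
    rw [← h1]
    exact h2
  have hleft : ∀ n : ℕ, Q (a - 1 - n) = Q (a - 1) ∧ Q (a - 1 - n - 1) = Q (a - 1) := by
    intro n
    induction n with
    | zero =>
      rw [Nat.cast_zero, sub_zero]
      exact ⟨rfl, hl0⟩
    | succ n ih =>
      obtain ⟨i1, i2⟩ := ih
      have e1 : a - 1 - ((n + 1 : ℕ) : ℤ) = a - 1 - n - 1 := by push_cast; ring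
      rw [e1]
      refine ⟨i2, ?_⟩
      refine le_antisymm (mQ (by omega)) ?_
      have h0 : Q (a - 1) < P a := by
        have h1 : Q (a - 1) ≤ Q a := mQ (by omega)
        linarith
      have h1 := N2 a (a - 1 - n) (by omega) (by rw [i1]; linarith)
      rw [i1, i2] at h1
      have e2 : a - 1 - (n : ℤ) - 2 = a - 1 - n - 1 - 1 := by ring
      rw [e2, pow_two] at h1
      have h2 := le_of_mul_le_mul_left h1 (by linarith)
      linarith
  obtain ⟨m1, hm1⟩ := lowQ
  have hQ0 : Q (a - 1) = 0 := by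
    obtain ⟨n, hn⟩ : ∃ n : ℕ, a - 1 - n < m1 := ⟨(a - m1).toNat, by omega⟩
    rw [← (hleft n).1]
    exact hm1 _ hn
  have hlo : ∀ k < a, P k = 0 ∧ Q k = 0 := by
    intro k hk
    obtain ⟨n, hn⟩ := Int.eq_ofNat_of_zero_le (show 0 ≤ a - 1 - k by omega)
    have e1 : k = a - 1 - n := by omega
    have h1 : Q k = 0 := by rw [e1, (hleft n).1, hQ0]
    exact ⟨by rw [hlowEq k hk, h1], h1⟩
  refine ⟨a, b, ?_, ?_, hlo, hhi, hab, ?_⟩
  · intro k
    show 0 ≤ P k - P (k - 1)
    linarith [hL k]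
  · intro k
    show 0 ≤ Q k - Q (k - 1)
    linarith [hR k]
  · intro k h1 h2
    show 0 < P k - Q k
    linarith [hFpos k h1 h2]

/-! ### the context of a family -/

section ctx
variable {E : Type} [Fintype E] [DecidableEq E] (A : Fam E)

theorem prP (p : ℤ) : (famCtx A).pr.P p = pre A.S.L p := by
  show (famCtx A).P p (Pi.single .Y 1) = _
  rw [Pool.Agent.Helper13.LZ.famP_apply, Pool.Agent.Helper13.LZ.sum_single]
  rfl

theorem prQ (q : ℤ) : (famCtx A).pr.Q q = pre A.S.R q := by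
  show (famCtx A).Q q (Pi.single .X 1) = _
  rw [Pool.Agent.Helper13.LZ.famQ_apply, Pool.Agent.Helper13.LZ.sum_single]
  rfl

theorem famG (q : ℤ) : (famCtx A).G q = max ((famCtx A).pr.P (q - 1) - (famCtx A).pr.Q q) 0 := by
  rw [prP, prQ]
  show max (pre A.S.L (q - 1) - pre A.S.R (q - 1 - -1)) 0 = _
  congr 3
  ring

end ctx

section gen
variable {V : Type} [AddCommGroup V] [Module ℝ V] {S : Ctx V}

theorem full_apply (p q : ℤ) (u v : V × ℝ) :
    S.full p q u v = S.D p q u.1 v.1 + u.2 * (S.P p v.1 - S.Q q v.1)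
      + v.2 * (S.P p u.1 - S.Q q u.1) + u.2 * v.2 * S.g p q := rfl

theorem full_sym (h : S.Rel) (p q : ℤ) : Sym (S.full p q) := by
  intro u v
  rw [full_apply, full_apply, h.sym p q u.1 v.1]
  ring

theorem WW (p q : ℤ) : S.full p q (0, 1) (0, 1) = S.g p q := by
  rw [full_apply]
  simp

theorem WX (h : S.Rel) (p q : ℤ) :
    S.full p q (0, 1) (S.X, 0) = S.pr.P (p + 1) - S.pr.Q q := by
  rw [full_apply]
  simp only [map_zero, LinearMap.zero_apply, zero_add, one_mul, zero_mul, mul_zero, add_zero]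
  rw [h.PX]
  rfl

theorem WY (h : S.Rel) (p q : ℤ) :
    S.full p q (0, 1) (S.Y, 0) = S.pr.P p - S.pr.Q (q - 1) := by
  rw [full_apply]
  simp only [map_zero, LinearMap.zero_apply, zero_add, one_mul, zero_mul, mul_zero, add_zero]
  rw [h.QY]
  rfl

theorem XX (h : S.Rel) (p q : ℤ) :
    S.full p q (S.X, 0) (S.X, 0) = S.pr.P (p + 2) - S.pr.Q q := by
  rw [full_apply]
  simp only [zero_mul, mul_zero, add_zero]
  rw [h.DX, h.PX, show p + 1 + 1 = p + 2 by ring]
  rfl

theorem YY (h : S.Rel) (p q : ℤ) :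
    S.full p q (S.Y, 0) (S.Y, 0) = S.pr.P p - S.pr.Q (q - 2) := by
  rw [full_apply]
  simp only [zero_mul, mul_zero, add_zero]
  rw [h.DY, h.QY, show q - 1 - 1 = q - 2 by ring]
  rfl

end gen

open LaurentPolynomial in
theorem pre_low (f : ℝ[T;T⁻¹]) : ∃ m : ℤ, ∀ k < m, pre f k = 0 := by
  obtain ⟨m, hm⟩ := f.coeff.support.bddBelow
  refine ⟨m, fun k hk => Finset.sum_eq_zero fun i hi => ?_⟩
  have h1 : m ≤ i := hm hi
  rw [if_neg (by omega)]

/-- packet BR3 -/
theorem brg (h1 : StmtOP) (h2 : StmtBRR) (h3 : StmtBRL) : StmtBRG := by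
  intro E _ _ A hA hne
  have hrel := h2 E A hA
  obtain ⟨hl2, hl⟩ := h3 E A hA
  obtain ⟨-, hop2, -⟩ := h1
  have eP := prP A
  have eQ := prQ A
  have hFc : ∀ k, (famCtx A).pr.P k - (famCtx A).pr.Q k = A.S.F.coeff k := by
    intro k
    rw [eP, eQ, Pool.Agent.Helper33.C2.coeff_F]
  obtain ⟨a, b, hreg⟩ := core (famCtx A).pr.P (famCtx A).pr.Q
    (fun k => by
      have h4 := Pool.Agent.Helper33.C2.pre_sub_step A.S.L k
      have h5 := hA.nonneg.L k
      rw [eP, eP]
      linarith)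
    (fun k => by
      have h4 := Pool.Agent.Helper33.C2.pre_sub_step A.S.R k
      have h5 := hA.nonneg.R k
      rw [eQ, eQ]
      linarith)
    (fun k => by
      have h4 := hFc k
      have h5 := hA.nonneg.F k
      linarith)
    (by
      obtain ⟨m, hm⟩ := pre_low A.S.R
      exact ⟨m, fun k hk => by rw [eQ, hm k hk]⟩)
    (by
      obtain ⟨m, hm⟩ := pre_low A.S.R
      obtain ⟨m', hm'⟩ := pre_low A.S.L
      refine ⟨min m m', fun k hk => ?_⟩
      rw [eP, eQ, hm k (lt_of_lt_of_le hk (min_le_left _ _)),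
        hm' k (lt_of_lt_of_le hk (min_le_right _ _))])
    (by
      obtain ⟨m, hm⟩ := A.S.F.coeff.support.bddAbove
      refine ⟨m, fun k hk => ?_⟩
      have h4 : A.S.F.coeff k = 0 := by
        by_contra hcon
        have h5 : k ≤ m := hm (Finsupp.mem_support_iff.2 hcon)
        omega
      have h5 := hFc k
      linarith)
    (by
      by_contra hcon
      push Not at hcon
      apply hne
      apply AddMonoidAlgebra.ext
      apply Finsupp.ext
      intro k
      rw [← hFc k, hcon k, sub_self]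
      rfl)
    (fun q hq1 hq2 hq3 => by
      have hg : (famCtx A).full (q - 1) q (0, 1) (0, 1) = 0 := by
        rw [WW]
        unfold Ctx.g
        rw [if_neg (by omega), famG, max_eq_right (by linarith)]
      have h4 := hop2 _ ((famCtx A).full (q - 1) q) (0, 1) ((famCtx A).X, 0) ((famCtx A).Y, 0)
        (full_sym hrel _ _) (hl _ _ le_rfl) hg
        (by rw [WY hrel]; exact hq2)
        (by rw [WX hrel, show q - 1 + 1 = q by ring, hq3, sub_self])
      rw [XX hrel, show q - 1 + 2 = q + 1 by ring] at h4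
      linarith)
    (fun q hq1 hq2 hq3 => by
      have hg : (famCtx A).full (q - 1) q (0, 1) (0, 1) = 0 := by
        rw [WW]
        unfold Ctx.g
        rw [if_neg (by omega), famG, max_eq_right (by linarith)]
      have h4 := hop2 _ ((famCtx A).full (q - 1) q) (0, 1) ((famCtx A).Y, 0) ((famCtx A).X, 0)
        (full_sym hrel _ _) (hl _ _ le_rfl) hg
        (by rw [WX hrel, show q - 1 + 1 = q by ring]; exact hq2)
        (by rw [WY hrel, hq3, sub_self])
      rw [YY hrel] at h4
      linarith)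
    (fun p q hpq hpos => by
      have hg : (famCtx A).full p q (0, 1) (0, 1) = (famCtx A).pr.P p - (famCtx A).pr.Q q := by
        rw [WW]
        unfold Ctx.g
        rw [if_pos hpq]
        rfl
      have h4 := hl p q (by omega) (0, 1) ((famCtx A).X, 0) (by rw [hg]; exact hpos)
      rw [hg, XX hrel, WX hrel] at h4
      exact h4)
    (fun p q hpq hpos => by
      have hg : (famCtx A).full p q (0, 1) (0, 1) = (famCtx A).pr.P p - (famCtx A).pr.Q q := by
        rw [WW]
        unfold Ctx.g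
        rw [if_pos hpq]
        rfl
      have h4 := hl p q (by omega) (0, 1) ((famCtx A).Y, 0) (by rw [hg]; exact hpos)
      rw [hg, YY hrel, WY hrel] at h4
      exact h4)
  exact ⟨a, b, hreg⟩

end Pool.Agent.Helper16.LZ
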